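import Mathlib

/-!
# Weak rainbow saturation numbers of cliques

`rwsat(n, K_r) ≤ (r - 1) n - C(r, 2)` for all `n ≥ r ≥ 3`, hence `rwsat(n, K_r) ≤ r n + C`.
-/

set_option autoImplicit false

namespace Pool.Agent.Results.MP_d10f6f_co.CliqueJoin

/-- The graph obtained from `G` by adding the edges `e 0, ..., e i`. -/
def addGraph {V : Type*} {m : ℕ} (G : SimpleGraph V) (e : Fin m → Sym2 V) (i : Fin m) :
    SimpleGraph V :=
  G ⊔ SimpleGraph.fromEdgeSet {s | ∃ j, j ≤ i ∧ e j = s}

open Classical in
/-- The colouring in which the edge `e j` has colour `c j`, and every other edge `s` keeps its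
colour `χ s`. -/
noncomputable def addColour {V : Type*} {m : ℕ} (χ : Sym2 V → ℕ) (e : Fin m → Sym2 V)
    (c : Fin m → ℕ) (s : Sym2 V) : ℕ :=
  if h : ∃ j, e j = s then c h.choose else χ s

/-- The edge `s` lies in a rainbow copy of `K_r` in the graph `H` with edge colouring `κ`. -/
def InRainbowClique {V : Type*} (H : SimpleGraph V) (κ : Sym2 V → ℕ) (r : ℕ) (s : Sym2 V) :
    Prop :=
  ∃ S : Finset V, S.card = r ∧ H.IsClique (S : Set V) ∧ s ∈ H.edgeSet ∧ (∀ x ∈ s, x ∈ S) ∧
    Set.InjOn κ {t | t ∈ H.edgeSet ∧ ∀ x ∈ t, x ∈ S}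

/-- The edge-coloured subgraph `(G, χ)` of the complete graph on `Fin n` is weakly
`K_r`-rainbow saturated: the missing edges can be listed as `e 0, ..., e (m - 1)` so that for all
pairwise distinct colours `c 0, ..., c (m - 1)`, when the edges are added in this order with
these colours, each added edge lies in a rainbow copy of `K_r` at the moment it is added. -/
def WeaklySaturated (n r : ℕ) (G : SimpleGraph (Fin n)) (χ : Sym2 (Fin n) → ℕ) : Prop :=
  ∃ (m : ℕ) (e : Fin m → Sym2 (Fin n)), Function.Injective e ∧ Set.range e = Gᶜ.edgeSet ∧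
    ∀ c : Fin m → ℕ, Function.Injective c → ∀ i : Fin m,
      InRainbowClique (addGraph G e i) (addColour χ e c) r (e i)

/-- The weak rainbow saturation number `rwsat(n, K_r)`. -/
noncomputable def rwsat (n r : ℕ) : ℕ :=
  sInf {k | ∃ (G : SimpleGraph (Fin n)) (χ : Sym2 (Fin n) → ℕ),
    WeaklySaturated n r G χ ∧ G.edgeSet.ncard = k}

/-- The join of a clique on `s` vertices and `n - s` independent vertices. -/
def joinGraph (n s : ℕ) : SimpleGraph (Fin n) where
  Adj x y := x ≠ y ∧ (x.1 < s ∨ y.1 < s)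
  symm := ⟨fun _ _ h => ⟨h.1.symm, h.2.symm⟩⟩
  loopless := ⟨fun _ h => h.1 rfl⟩

lemma joinGraph_edges (n s : ℕ) (hs : s ≤ n) :
    2 * (joinGraph n s).edgeSet.ncard + s * (s + 1) = 2 * (s * n) := by
  classical
  have h1 := (joinGraph n s).sum_degrees_eq_twice_card_edges
  have h2 : (joinGraph n s).edgeSet.ncard = (joinGraph n s).edgeFinset.card := by
    rw [← SimpleGraph.coe_edgeFinset, Set.ncard_coe_finset]
  have hdeg : ∀ x : Fin n, (joinGraph n s).degree x = if x.1 < s then n - 1 else s := by
    intro x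
    rw [← SimpleGraph.card_neighborFinset_eq_degree]
    split_ifs with hx
    · have : (joinGraph n s).neighborFinset x = Finset.univ.erase x := by
        ext y
        rw [SimpleGraph.mem_neighborFinset, Finset.mem_erase]
        exact ⟨fun h => ⟨h.1.symm, Finset.mem_univ _⟩, fun h => ⟨h.1.symm, Or.inl hx⟩⟩
      rw [this, Finset.card_erase_of_mem (Finset.mem_univ _), Finset.card_univ, Fintype.card_fin]
    · have : (joinGraph n s).neighborFinset x = Finset.univ.filter (fun y : Fin n => y.1 < s) := by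
        ext y
        rw [SimpleGraph.mem_neighborFinset, Finset.mem_filter, and_iff_right (Finset.mem_univ _)]
        constructor
        · rintro ⟨_, h | h⟩
          · exact absurd h hx
          · exact h
        · intro h
          refine ⟨?_, Or.inr h⟩
          rintro rfl
          exact hx h
      rw [this]
      have h3 : (Finset.univ.filter (fun y : Fin n => y.1 < s)).card = s := by
        have := Fin.card_filter_val_lt (n := n) (m := s)
        simpa [Nat.min_eq_right hs] using this
      exact h3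
  rw [Finset.sum_congr rfl (fun x _ => hdeg x)] at h1
  have h4 : ∑ x : Fin n, (if x.1 < s then n - 1 else s) = s * (n - 1) + (n - s) * s := by
    rw [Finset.sum_ite, Finset.sum_const, Finset.sum_const, smul_eq_mul, smul_eq_mul]
    have h5 : (Finset.univ.filter (fun y : Fin n => y.1 < s)).card = s := by
      have := Fin.card_filter_val_lt (n := n) (m := s)
      simpa [Nat.min_eq_right hs] using this
    have h6 : (Finset.univ.filter (fun y : Fin n => ¬ y.1 < s)).card = n - s := by
      have := Finset.card_filter_add_card_filter_not (s := (Finset.univ : Finset (Fin n)))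
        (fun y : Fin n => y.1 < s)
      rw [h5, Finset.card_univ, Fintype.card_fin] at this
      omega
    rw [h5, h6]
  rw [h4] at h1
  rw [h2]
  rcases Nat.eq_zero_or_pos n with h0 | h0
  · subst h0
    have : s = 0 := by omega
    subst this
    simp at h1 ⊢
    omega
  · obtain ⟨t, rfl⟩ : ∃ t, n = s + t := ⟨n - s, by omega⟩
    have e1 : s + t - s = t := by omega
    rw [e1] at h1
    rcases Nat.eq_zero_or_pos s with h7 | h7
    · subst h7
      simp at h1 ⊢
      omega
    · obtain ⟨u, rfl⟩ : ∃ u, s = u + 1 := ⟨s - 1, by omega⟩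
      have e2 : u + 1 + t - 1 = u + t := by omega
      rw [e2] at h1
      rw [← h1]
      ring

lemma joinGraph_saturated (n r : ℕ) (hr : 3 ≤ r) (hn : r ≤ n) :
    ∃ χ, WeaklySaturated n r (joinGraph n (r - 1)) χ := by
  classical
  set G := joinGraph n (r - 1) with hG
  obtain ⟨χ, hχ⟩ : ∃ χ : Sym2 (Fin n) → ℕ, Function.Injective χ :=
    ⟨fun s => (Fintype.equivFin (Sym2 (Fin n)) s).1, fun a b h =>
      (Fintype.equivFin (Sym2 (Fin n))).injective (Fin.ext h)⟩
  refine ⟨χ, Fintype.card Gᶜ.edgeSet, fun i => ((Fintype.equivFin Gᶜ.edgeSet).symm i).1, ?_, ?_, ?_⟩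
  · intro a b h
    exact (Fintype.equivFin Gᶜ.edgeSet).symm.injective (Subtype.ext h)
  · ext s
    constructor
    · rintro ⟨i, rfl⟩
      exact ((Fintype.equivFin Gᶜ.edgeSet).symm i).2
    · intro hs
      exact ⟨Fintype.equivFin Gᶜ.edgeSet ⟨s, hs⟩, by simp⟩
  set e : Fin (Fintype.card Gᶜ.edgeSet) → Sym2 (Fin n) :=
    fun i => ((Fintype.equivFin Gᶜ.edgeSet).symm i).1 with he
  have heinj : Function.Injective e := by
    intro a b h
    exact (Fintype.equivFin Gᶜ.edgeSet).symm.injective (Subtype.ext h)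
  have heG : ∀ i, e i ∈ Gᶜ.edgeSet := fun i => ((Fintype.equivFin Gᶜ.edgeSet).symm i).2
  intro c hc i
  -- the colours
  have hκe : addColour χ e c (e i) = c i := by
    unfold addColour
    have h : ∃ j, e j = e i := ⟨i, rfl⟩
    rw [dif_pos h]
    exact congrArg c (heinj h.choose_spec)
  have hκG : ∀ t ∈ G.edgeSet, addColour χ e c t = χ t := by
    intro t ht
    unfold addColour
    rw [dif_neg]
    rintro ⟨j, rfl⟩
    have := heG j
    induction hj : e j with
    | _ a b =>
      rw [hj] at this ht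
      rw [SimpleGraph.mem_edgeSet] at this ht
      rw [SimpleGraph.compl_adj] at this
      exact this.2 ht
  -- the new edge
  obtain ⟨v, w, hvw⟩ : ∃ v w, e i = s(v, w) := by
    induction h : e i with
    | _ a b => exact ⟨a, b, rfl⟩
  have hcomp := heG i
  rw [hvw, SimpleGraph.mem_edgeSet, SimpleGraph.compl_adj] at hcomp
  have hne : v ≠ w := hcomp.1
  have hvs : ¬ v.1 < r - 1 := fun h => hcomp.2 ⟨hne, Or.inl h⟩
  have hws : ¬ w.1 < r - 1 := fun h => hcomp.2 ⟨hne, Or.inr h⟩
  -- the vertex to be avoided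
  obtain ⟨x, hx, hxa⟩ : ∃ x : Fin n, x.1 < r - 1 ∧
      ∀ t ∈ G.edgeSet, χ t = c i → x ∈ t := by
    by_cases h : ∃ t ∈ G.edgeSet, χ t = c i
    · obtain ⟨t, ht, htc⟩ := h
      induction t with
      | _ a b =>
        rw [SimpleGraph.mem_edgeSet] at ht
        rcases ht.2 with h1 | h1
        · refine ⟨a, h1, fun t' _ htc' => ?_⟩
          have : t' = s(a, b) := hχ (htc'.trans htc.symm)
          rw [this]
          exact Sym2.mem_mk_left a b
        · refine ⟨b, h1, fun t' _ htc' => ?_⟩
          have : t' = s(a, b) := hχ (htc'.trans htc.symm)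
          rw [this]
          exact Sym2.mem_mk_right a b
    · push Not at h
      exact ⟨⟨0, by omega⟩, by show 0 < r - 1; omega, fun t ht htc => absurd htc (h t ht)⟩
  -- the clique
  set A : Finset (Fin n) := (Finset.univ.filter (fun y : Fin n => y.1 < r - 1)).erase x with hA
  have hAcard : A.card = r - 2 := by
    rw [hA, Finset.card_erase_of_mem (by simp [hx])]
    have := Fin.card_filter_val_lt (n := n) (m := r - 1)
    have h3 : (Finset.univ.filter (fun y : Fin n => y.1 < r - 1)).card = r - 1 := by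
      simpa [Nat.min_eq_right (show r - 1 ≤ n by omega)] using this
    rw [h3]
    omega
  have hAmem : ∀ y, y ∈ A ↔ y ≠ x ∧ y.1 < r - 1 := by
    intro y
    rw [hA, Finset.mem_erase, Finset.mem_filter]
    simp
  have hvA : v ∉ A := fun h => hvs ((hAmem v).1 h).2
  have hwA : w ∉ A := fun h => hws ((hAmem w).1 h).2
  have hadj : ∀ y z, y ∈ insert v (insert w A) → z ∈ insert v (insert w A) → y ≠ z →
      G.Adj y z ∨ s(y, z) = e i := by
    intro y z hy hz hyz
    rw [Finset.mem_insert, Finset.mem_insert] at hy hz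
    rcases hy with rfl | rfl | hy
    · rcases hz with rfl | rfl | hz
      · exact absurd rfl hyz
      · exact Or.inr hvw.symm
      · exact Or.inl ⟨hyz, Or.inr ((hAmem z).1 hz).2⟩
    · rcases hz with rfl | rfl | hz
      · exact Or.inr (by rw [hvw, Sym2.eq_swap])
      · exact absurd rfl hyz
      · exact Or.inl ⟨hyz, Or.inr ((hAmem z).1 hz).2⟩
    · exact Or.inl ⟨hyz, Or.inl ((hAmem y).1 hy).2⟩
  have hxS : x ∉ insert v (insert w A) := by
    intro h
    rw [Finset.mem_insert, Finset.mem_insert] at h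
    rcases h with rfl | rfl | h
    · exact hvs hx
    · exact hws hx
    · exact ((hAmem x).1 h).1 rfl
  have hei : e i ∈ (addGraph G e i).edgeSet := by
    unfold addGraph
    rw [SimpleGraph.edgeSet_sup, SimpleGraph.edgeSet_fromEdgeSet]
    right
    refine ⟨⟨i, le_rfl, rfl⟩, ?_⟩
    rw [hvw]
    simpa using hne
  refine ⟨insert v (insert w A), ?_, ?_, hei, ?_, ?_⟩
  · rw [Finset.card_insert_of_notMem, Finset.card_insert_of_notMem hwA, hAcard]
    · omega
    · rw [Finset.mem_insert]
      rintro (h | h)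
      · exact hne h
      · exact hvA h
  · intro y hy z hz hyz
    rcases hadj y z (by simpa using hy) (by simpa using hz) hyz with h | h
    · exact Or.inl h
    · rw [← SimpleGraph.mem_edgeSet, h]
      exact hei
  · intro y hy
    rw [hvw, Sym2.mem_iff] at hy
    rcases hy with rfl | rfl
    · simp
    · simp
  · -- injectivity of the colouring
    have hcase : ∀ t ∈ {t | t ∈ (addGraph G e i).edgeSet ∧
        ∀ y ∈ t, y ∈ insert v (insert w A)}, t = e i ∨ (t ∈ G.edgeSet ∧ x ∉ t) := by
      intro t ht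
      induction t with
      | _ a b =>
        have h1 : (addGraph G e i).Adj a b := ht.1
        have ha := ht.2 a (Sym2.mem_mk_left a b)
        have hb := ht.2 b (Sym2.mem_mk_right a b)
        rcases hadj a b ha hb h1.ne with h | h
        · right
          refine ⟨h, fun hxt => ?_⟩
          exact hxS (ht.2 x hxt)
        · exact Or.inl h
    intro t ht t' ht' htt
    rcases hcase t ht with rfl | ⟨h1, h2⟩
    · rcases hcase t' ht' with rfl | ⟨h3, h4⟩
      · rfl
      · rw [hκe, hκG t' h3] at htt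
        exact absurd (hxa t' h3 htt.symm) h4
    · rcases hcase t' ht' with rfl | ⟨h3, h4⟩
      · rw [hκe, hκG t h1] at htt
        exact absurd (hxa t h1 htt) h2
      · rw [hκG t h1, hκG t' h3] at htt
        exact hχ htt

/-- For all `n ≥ r ≥ 3` one has `rwsat(n, K_r) ≤ (r - 1) n - C(r, 2)`. In particular, for every
`r ≥ 3` there are constants `C` and `n₀` with `rwsat(n, K_r) ≤ r n + C` for all `n ≥ n₀`. -/
theorem result :
    (∀ r : ℕ, 3 ≤ r → ∀ n : ℕ, r ≤ n → rwsat n r + r.choose 2 ≤ (r - 1) * n) ∧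
    ∀ r : ℕ, 3 ≤ r → ∃ C n₀ : ℕ, ∀ n : ℕ, n₀ ≤ n → rwsat n r ≤ r * n + C := by
  have key : ∀ r : ℕ, 3 ≤ r → ∀ n : ℕ, r ≤ n → rwsat n r + r.choose 2 ≤ (r - 1) * n := by
    intro r hr n hn
    obtain ⟨χ, hχ⟩ := joinGraph_saturated n r hr hn
    have h1 : rwsat n r ≤ (joinGraph n (r - 1)).edgeSet.ncard :=
      Nat.sInf_le ⟨joinGraph n (r - 1), χ, hχ, rfl⟩
    have h2 := joinGraph_edges n (r - 1) (by omega)
    have h3 : 2 * r.choose 2 = r * (r - 1) := by
      rw [Nat.choose_two_right, Nat.mul_div_cancel' (Nat.even_mul_pred_self r).two_dvd]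
    obtain ⟨q, rfl⟩ : ∃ q, r = q + 1 := ⟨r - 1, by omega⟩
    simp only [Nat.add_sub_cancel] at h1 h2 h3 ⊢
    have h4 : q * (q + 1) = (q + 1) * q := by ring
    omega
  refine ⟨key, fun r hr => ⟨0, r, fun n hn => ?_⟩⟩
  have h1 := key r hr n hn
  have h2 : (r - 1) * n ≤ r * n := Nat.mul_le_mul_right n (by omega)
  omega

end Pool.Agent.Results.MP_d10f6f_co.CliqueJoin
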